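import Pool.Agent.Lib.MP_193d8d_pr.AllB

/-!
# The rescaled density of one distance in a random metric space converges

`MetricPolytope n` is the set of metrics on `Fin n` with distances at most `2`, as a subset of
`ℝ^(pairs)`; `IsDensity n i j f` says that `f` is the density of the distance of `i` and `j` in a
uniformly distributed random point of the polytope (continuous version on `(0,2)`).
-/

set_option autoImplicit false
open MeasureTheory Set Filter Topology

namespace Pool.Agent.Results.MP_193d8d_pr.RescaledDensity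

open Pool.Agent.Lib.MP_193d8d_pr

theorem result :
    ∃ (g : ℝ → ℝ) (C : ℝ), 0 < C ∧ ContinuousOn g (Ici 0) ∧
    (∀ t, 0 ≤ t → 0 < g t ∧ g t ≤ 1 ∧ g t ≤ 2 * Real.exp (-(t / C))) ∧
    (∀ (n : ℕ) (i j : Fin n), i ≠ j → ∃ f, IsDensity n i j f) ∧
    (∀ f : ℕ → ℝ → ℝ,
      (∀ (n : ℕ) (h : 2 ≤ n), IsDensity n ⟨0, by omega⟩ ⟨1, by omega⟩ (f n)) →
        (∀ t, 0 ≤ t → Tendsto (fun n : ℕ => f n (1 - t / Real.sqrt n)) atTop (𝓝 (g t))) ∧
        (∀ b, TendstoUniformlyOn (fun (n : ℕ) t => f n (1 - t / Real.sqrt n)) g atTop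
          (Icc 0 b)) ∧
        Tendsto (fun n : ℕ => ∫ t in Ioi (0 : ℝ), |f n (1 - t / Real.sqrt n) - g t|) atTop
          (𝓝 0)) :=
  MF.main

end Pool.Agent.Results.MP_193d8d_pr.RescaledDensity
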