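import Pool.Agent.Lib.MP_193d8d_pr.AllB

/-!
# The volume of the metric polytope
-/

set_option autoImplicit false
open MeasureTheory Set Filter Topology

namespace Pool.Agent.Results.MP_193d8d_pr.VolumeLimit

open Pool.Agent.Lib.MP_193d8d_pr

theorem result : ∃ v : ℝ,
    Tendsto (fun n : ℕ => Real.log (volume (MetricPolytope n)).toReal / (n : ℝ) ^ (3 / 2 : ℝ))
      atTop (𝓝 v) :=
  MF.volMain

end Pool.Agent.Results.MP_193d8d_pr.VolumeLimit
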